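import Pool.Agent.Lib.MP_72646e_co.Final

/-!
Products of a Lee ball and a subcube are exponentially optimal if and only if `q ≤ 7` (odd `q`).
-/

open Filter Topology
open Pool.Agent.Lib.MP_72646e_co

namespace Pool.Agent.Results.MP_72646e_co.BallCube

/-- Let `q = 2 m + 1`. If `q ≤ 7`, the products of a Lee ball and a subcube attain the exponential
growth rate of `NL q n ⌊δ n⌋` for every `δ`; if `q ≥ 9`, they are exponentially smaller than
`NL q n ⌊δ n⌋` for all `δ` in some interval. -/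
theorem result (m : ℕ) :
    (m ≤ 3 → ∀ δ : ℝ, 0 ≤ δ →
      Tendsto (fun n : ℕ => (Real.log (NL (2 * m + 1) n ⌊δ * n⌋₊) -
        Real.log (BC m n ⌊δ * n⌋₊)) / n) atTop (𝓝 0)) ∧
    (4 ≤ m → ∃ α β : ℝ, 0 < α ∧ α < β ∧ ∃ c : ℝ, 0 < c ∧
      ∀ δ : ℝ, α ≤ δ → δ ≤ β → ∀ᶠ n : ℕ in atTop,
        Real.exp (c * n) * (BC m n ⌊δ * n⌋₊ : ℝ) ≤ NL (2 * m + 1) n ⌊δ * n⌋₊) :=
  ⟨fun hm δ hδ => small_main m hm δ hδ, fun hm => large_main m hm⟩

end Pool.Agent.Results.MP_72646e_co.BallCube
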