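import Pool.Agent.Lib.MP_72646e_co.Big.Final

/-!
The exact solution of the diametric problem for the Lee metric for all odd `q ≥ 5`, when `n ≥ 3` and
`D ≤ q - 2`, and when `n ≥ 20 (D + 2) ^ 4`.
-/

open Finset Pool.Agent.Lib.MP_72646e_co Pool.Agent.Lib.MP_72646e_co.Low
  Pool.Agent.Lib.MP_72646e_co.Big

namespace Pool.Agent.Results.MP_72646e_co.ExactRanges

/-- Let `q = 2 m + 1 ≥ 5` and `n = d + 1`. If `n ≥ 3` and `D ≤ q - 2`, or if `n ≥ 20 (D + 2) ^ 4`,
then `NL q n D` is the cardinality of `T m d D`, a set of Lee diameter at most `D`; the third part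
gives the cardinality of this set for `D ≤ q - 2`, with
`Del d r = ∑ i, 2 ^ i * C(d, i) * C(r, i)`. -/
theorem result (m d D : ℕ) (hm : 2 ≤ m) :
    ((2 ≤ d ∧ D < 2 * m) ∨ 20 * (D + 2) ^ 4 ≤ d + 1 →
      NL (2 * m + 1) (d + 1) D = (T m d D).card) ∧
    (∀ x ∈ T m d D, ∀ y ∈ T m d D, dL x y ≤ D) ∧
    (D < 2 * m → (T m d D).card =
      ∑ k ∈ range (D + 1), Del d ((D - k) / 2) + (if D + 1 = 2 * m then 1 else 0)) :=
  exact_ranges m d D hm

end Pool.Agent.Results.MP_72646e_co.ExactRanges
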