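import Pool.Agent.Lib.MP_72646e_co.PlaneEx

/-!
The exact solution of the diametric problem for the Lee metric in dimension two, for all odd `q`.
-/

open Pool.Agent.Lib.MP_72646e_co

namespace Pool.Agent.Results.MP_72646e_co.Plane

/-- Let `q = 2 m + 1`. The exact value of `NL q 2 D` for all `D`, and for `D < 2 m` the two sets of
diameter at most `D` one of which attains it. -/
theorem result (m D : ℕ) :
    NL (2 * m + 1) 2 D = (if 2 * m ≤ D then (2 * m + 1) ^ 2
      else max (((D + 1) ^ 2 + 1) / 2) ((2 * m + 1) * (D + 1 - m))) ∧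
    (D < 2 * m →
      (∀ x ∈ diamond m D, ∀ y ∈ diamond m D, dL x y ≤ D) ∧
      (diamond m D).card = ((D + 1) ^ 2 + 1) / 2 ∧
      (∀ x ∈ strip m D, ∀ y ∈ strip m D, dL x y ≤ D) ∧
      (strip m D).card = (2 * m + 1) * (D + 1 - m)) :=
  ⟨plane m D, fun hD => ⟨diamond_diam, diamond_card hD, strip_diam, strip_card hD⟩⟩

end Pool.Agent.Results.MP_72646e_co.Plane
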