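import Pool.Agent.Lib.MP_72646e_co.Final

/-!
The exponential growth rate of the maximal size of a set of given Lee diameter, for odd `q`.
-/

open Filter Topology
open Pool.Agent.Lib.MP_72646e_co

namespace Pool.Agent.Results.MP_72646e_co.Rate

/-- Let `q = 2 m + 1`. (1) Finite upper bound for `NL q n D`. (2) The exponential growth rate of
`NL q n ⌊δ n⌋`. (3) Sets with at most two types of coordinates attain the rate. -/
theorem result (m : ℕ) :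
    (∀ (n D : ℕ) (u : ℝ), 1 ≤ u →
      (NL (2 * m + 1) n D : ℝ) ≤ u ^ ((D : ℝ) / 2) * kmax m u ^ n) ∧
    (∀ δ : ℝ, 0 ≤ δ →
      Tendsto (fun n : ℕ => Real.log (NL (2 * m + 1) n ⌊δ * n⌋₊) / n) atTop (𝓝 (rate m δ))) ∧
    (∀ δ ε : ℝ, 0 < δ → 0 < ε → ∀ᶠ n : ℕ in atTop, ∃ a ≤ m, ∃ b ≤ m, ∃ k ≤ n,
      (∀ x ∈ prodSet m n a b k ⌊δ * n⌋₊, ∀ y ∈ prodSet m n a b k ⌊δ * n⌋₊,
        dL x y ≤ ⌊δ * n⌋₊) ∧
      (NL (2 * m + 1) n ⌊δ * n⌋₊ : ℝ) ≤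
        Real.exp (ε * n) * ((prodSet m n a b k ⌊δ * n⌋₊).card : ℝ)) :=
  ⟨fun n D u hu => upperThm m n D u hu, fun δ hδ => (rateThm m δ hδ).2,
    fun δ ε hδ hε => sets_main m δ ε hδ hε⟩

end Pool.Agent.Results.MP_72646e_co.Rate
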